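import Pool.Agent.N162.HN.Stm2

/-!
# Project HO (helper162), part TAU (helper559): automorphisms which change a ratio
-/

set_option autoImplicit false

namespace Pool.Agent.N559.HO

open IntermediateField Polynomial
open IntermediateField.algebraAdjoinAdjoin

section

variable {F Ω : Type} [Field F] [Field Ω] [Algebra F Ω]

/-- exchange -/
theorem exch {l h : Ω} (hl : Transcendental F l) (hh : Transcendental F h)
    (alg : Algebra.IsAlgebraic F⟮l⟯ Ω) : Algebra.IsAlgebraic F⟮h⟯ Ω := by
  have hx : AlgebraicIndependent F (fun _ : Unit => l) :=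
    (algebraicIndependent_unique_type_iff).2 hl
  have hy : AlgebraicIndependent F (fun _ : Unit => h) :=
    (algebraicIndependent_unique_type_iff).2 hh
  have hr : Set.range (fun _ : Unit => l) = {l} := Set.range_const
  have hr' : Set.range (fun _ : Unit => h) = {h} := Set.range_const
  have hb : IsTranscendenceBasis F (fun _ : Unit => l) := by
    rw [hx.isTranscendenceBasis_iff_isAlgebraic, hr]
    exact (IsFractionRing.comap_isAlgebraic_iff (A := Algebra.adjoin F {l}) (K := F⟮l⟯)
      (C := Ω)).2 alg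
  have h1 := hb.cardinalMk_eq_trdeg
  have hb' : IsTranscendenceBasis F (fun _ : Unit => h) :=
    hy.isTranscendenceBasis_of_trdeg_le_of_finite (by rw [← h1])
  have h2 := hb'.isAlgebraic_field
  rwa [hr'] at h2

/-- automorphisms -/
theorem aut [IsAlgClosed Ω] {l φ : Ω} (hl : Transcendental F l) (hφ : Transcendental F φ)
    (alg : Algebra.IsAlgebraic F⟮l⟯ Ω) (hlφ : l ∈ F⟮φ⟯) : ∃ τ : Ω ≃ₐ[F] Ω, τ l = φ := by
  let f : F⟮l⟯ →ₐ[F] Ω := (IntermediateField.val F⟮φ⟯).comp
    ((RatFunc.algEquivOfTranscendental φ hφ).toAlgHom.comp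
      (RatFunc.algEquivOfTranscendental l hl).symm.toAlgHom)
  have hf : f (AdjoinSimple.gen F l) = φ := by
    have e1 : (RatFunc.algEquivOfTranscendental l hl).symm (AdjoinSimple.gen F l) =
        RatFunc.X := by
      rw [AlgEquiv.symm_apply_eq]
      apply Subtype.ext
      rw [RatFunc.algEquivOfTranscendental_X]
      rfl
    show ((RatFunc.algEquivOfTranscendental φ hφ
      ((RatFunc.algEquivOfTranscendental l hl).symm (AdjoinSimple.gen F l)) : F⟮φ⟯) : Ω) = φ
    rw [e1, RatFunc.algEquivOfTranscendental_X]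
  obtain ⟨τ, hτ⟩ := exists_algHom_of_splits' (F := F) (L := F⟮l⟯) (E := Ω) (K := Ω) f
    (fun s => ⟨(alg.isAlgebraic s).isIntegral, IsAlgClosed.splits _⟩)
  have hτl : τ l = φ := by
    rw [← hf, ← hτ]
    rfl
  have hsurj : Function.Surjective τ := by
    intro y
    let e := AlgEquiv.ofInjectiveField τ
    have i1 : IsAlgClosed τ.fieldRange := IsAlgClosed.of_ringEquiv Ω τ.fieldRange e.toRingEquiv
    have hle : F⟮l⟯ ≤ τ.fieldRange := by
      rw [adjoin_simple_le_iff]
      have h3 : F⟮φ⟯ ≤ τ.fieldRange := by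
        rw [adjoin_simple_le_iff]
        exact ⟨l, hτl⟩
      exact h3 hlφ
    have i2 : Algebra.IsAlgebraic τ.fieldRange Ω := by
      let : Algebra F⟮l⟯ τ.fieldRange := (inclusion hle).toRingHom.toAlgebra
      have : IsScalarTower F⟮l⟯ τ.fieldRange Ω := IsScalarTower.of_algebraMap_eq fun _ => rfl
      exact Algebra.IsAlgebraic.tower_top (K := F⟮l⟯) τ.fieldRange
    obtain ⟨⟨z, w, hw⟩, hz⟩ :=
      (IsAlgClosed.algebraMap_bijective_of_isIntegral (k := τ.fieldRange) (K := Ω)).2 y
    exact ⟨w, hw.trans hz⟩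
  exact ⟨AlgEquiv.ofBijective τ ⟨τ.toRingHom.injective, hsurj⟩, hτl⟩

end

section

variable {Ω : Type} [Field Ω] [Algebra ℂ Ω]

/-- the constants of a derivation -/
def ker (D : Derivation ℂ Ω Ω) : IntermediateField ℂ Ω where
  carrier := {z | D z = 0}
  mul_mem' := by
    intro a b ha hb
    show D (a * b) = 0
    rw [D.leibniz, show D a = 0 from ha, show D b = 0 from hb, smul_zero, smul_zero, add_zero]
  add_mem' := by
    intro a b ha hb
    show D (a + b) = 0
    rw [map_add, show D a = 0 from ha, show D b = 0 from hb, add_zero]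
  algebraMap_mem' := by
    intro r
    show D (algebraMap ℂ Ω r) = 0
    exact D.map_algebraMap r
  inv_mem' := by
    intro a ha
    show D a⁻¹ = 0
    rw [D.leibniz_inv, show D a = 0 from ha, smul_zero]

theorem mem_ker {D : Derivation ℂ Ω Ω} {z : Ω} : z ∈ ker D ↔ D z = 0 := Iff.rfl

/-- algebraic elements over the constants are constants -/
theorem ker_alg (D : Derivation ℂ Ω Ω) {z : Ω} (hz : IsAlgebraic (ker D) z) : D z = 0 := by
  have : CharZero Ω := charZero_of_injective_algebraMap (algebraMap ℂ Ω).injective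
  let D' : Derivation (ker D) Ω Ω :=
    { toFun := D
      map_add' := map_add D
      map_smul' := by
        intro c x
        show D ((c : Ω) * x) = (c : Ω) * D x
        rw [D.leibniz, smul_eq_mul, smul_eq_mul, show D (c : Ω) = 0 from c.2, mul_zero, add_zero]
      map_one_eq_zero' := D.map_one_eq_zero
      leibniz' := D.leibniz }
  have h1 := D'.map_aeval (minpoly (ker D) z) z
  rw [minpoly.aeval, map_zero] at h1
  have h2 : aeval z (derivative (minpoly (ker D) z)) ≠ 0 :=
    (minpoly.irreducible hz.isIntegral).separable.aeval_derivative_ne_zero (minpoly.aeval _ _)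
  exact (smul_eq_zero.1 h1.symm).resolve_left h2

/-- everything is constant -/
theorem ker_top (N : IntermediateField ℂ Ω) (D : Derivation ℂ Ω Ω) (hN : ∀ a ∈ N, D a = 0)
    {l : Ω} (hl : D l = 0) {z : Ω} (hz : IsAlgebraic N⟮l⟯ z) : D z = 0 := by
  apply ker_alg
  have hle : ∀ x ∈ N⟮l⟯, x ∈ ker D := by
    have h1 : N⟮l⟯ ≤ extendScalars (F := N) (E := ker D) (fun a ha => hN a ha) := by
      rw [adjoin_simple_le_iff]
      exact hl
    intro x hx
    exact h1 hx
  let : Algebra N⟮l⟯ (ker D) :=
    ((N⟮l⟯.val.toRingHom).codRestrict (ker D).toSubring fun x => hle x x.2).toAlgebra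
  have : IsScalarTower N⟮l⟯ (ker D) Ω := IsScalarTower.of_algebraMap_eq fun _ => rfl
  exact hz.tower_top (ker D)

end

theorem tau_ : Pool.Agent.N162.HN.StTAU := by
  intro Ω _ _ _ N l δ hN hl alg hδN hδl g hg
  have cz : CharZero Ω := charZero_of_injective_algebraMap (algebraMap ℂ Ω).injective
  have htr : ∀ a : Ω, a ∉ N → Transcendental N a := fun a ha h => ha (hN a h)
  have hl' := htr l hl
  by_contra hcon
  push Not at hcon
  -- conjugation of the derivation
  have hconj : ∀ (τ : Ω ≃ₐ[N] Ω) (c : Ω), c ∈ N → δ (τ l) = c → ∀ z, δ (τ z) = c * τ (δ z) := by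
    intro τ c hc hτ z
    have hfix : ∀ a ∈ N, τ a = a := fun a ha => τ.commutes ⟨a, ha⟩
    let D : Derivation ℂ Ω Ω :=
      { toFun := fun z => τ.symm (δ (τ z)) - c * δ z
        map_add' := by
          intro x y
          simp only [map_add]
          ring
        map_smul' := by
          intro r x
          have e1 : τ (r • x) = r • τ x := by
            rw [Algebra.smul_def, Algebra.smul_def, map_mul,
              hfix _ (N.algebraMap_mem r)]
          have e2 : ∀ y, τ.symm (r • y) = r • τ.symm y := by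
            intro y
            rw [AlgEquiv.symm_apply_eq, Algebra.smul_def, Algebra.smul_def, map_mul,
              hfix _ (N.algebraMap_mem r), AlgEquiv.apply_symm_apply]
          simp only [RingHom.id_apply]
          rw [e1, δ.map_smul, δ.map_smul, e2, smul_sub, mul_smul_comm]
        map_one_eq_zero' := by
          show τ.symm (δ (τ 1)) - c * δ 1 = 0
          rw [map_one, δ.map_one_eq_zero, map_zero, mul_zero, sub_zero]
        leibniz' := by
          intro x y
          show τ.symm (δ (τ (x * y))) - c * δ (x * y) =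
            x • (τ.symm (δ (τ y)) - c * δ y) + y • (τ.symm (δ (τ x)) - c * δ x)
          rw [map_mul, δ.leibniz, δ.leibniz, map_add]
          simp only [smul_eq_mul, map_mul, AlgEquiv.symm_apply_apply]
          ring }
    have hcs : τ.symm c = c := by rw [AlgEquiv.symm_apply_eq, hfix c hc]
    have h1 : D z = 0 := by
      refine ker_top N D ?_ (l := l) ?_ (alg.isAlgebraic z)
      · intro a ha
        show τ.symm (δ (τ a)) - c * δ a = 0
        rw [hfix a ha, hδN a ha, map_zero, mul_zero, sub_zero]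
      · show τ.symm (δ (τ l)) - c * δ l = 0
        rw [hτ, hδl, mul_one, hcs, sub_self]
    have h2 : τ.symm (δ (τ z)) - c * δ z = 0 := h1
    have h3 := congrArg τ (sub_eq_zero.1 h2)
    rwa [AlgEquiv.apply_symm_apply, map_mul, hfix c hc] at h3
  have hNl : ∀ {φ : Ω}, (∀ h : φ ∈ N, False) → l ∈ N⟮φ⟯ → ∃ τ : Ω ≃ₐ[N] Ω, τ l = φ :=
    fun {φ} h1 h2 => aut hl' (htr φ h1) alg h2
  -- the translation
  obtain ⟨τ, hτ⟩ := hNl (φ := l + 1) (fun h => hl (by simpa using N.sub_mem h N.one_mem)) (by
    have h1 : l + 1 ∈ N⟮l + 1⟯ := mem_adjoin_simple_self _ _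
    have h2 := sub_mem h1 (one_mem N⟮l + 1⟯)
    rwa [add_sub_cancel_right] at h2)
  have hδτ : δ (τ l) = 1 := by rw [hτ, map_add, hδl, δ.map_one_eq_zero, add_zero]
  have hc1 := hconj τ 1 N.one_mem hδτ
  obtain ⟨q, hq⟩ := hcon τ
  rw [hδτ, one_mul] at hq
  have hτg : τ g ≠ 0 := fun h => hg ((map_eq_zero τ).1 h)
  have hq0 : (q : Ω) ≠ 0 := by
    intro h
    rw [h, zero_mul] at hq
    exact hτg hq
  have hδq : ∀ (q : ℚ) (x : Ω), δ ((q : Ω) * x) = (q : Ω) * δ x := by
    intro q x
    have e : ((q : Ω)) = algebraMap ℂ Ω (q : ℂ) := by rw [map_ratCast]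
    rw [δ.leibniz, e, δ.map_algebraMap, smul_zero, add_zero, smul_eq_mul]
  set h : Ω := δ g / g with hh
  have hgh : h * g = δ g := div_mul_cancel₀ _ hg
  have hτh : τ h = h := by
    have h1 := hc1 g
    rw [hq, hδq, one_mul] at h1
    rw [hh, map_div₀, ← h1, hq, mul_div_mul_left _ _ hq0]
  have hhN : h ∈ N := by
    by_contra hc
    have h1 := (exch hl' (htr h hc) alg).isAlgebraic l
    have h2 : ∀ x ∈ N⟮h⟯, τ x = x := by
      intro x hx
      induction hx using IntermediateField.adjoin_induction with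
      | mem x hx => rw [Set.mem_singleton_iff.1 hx, hτh]
      | algebraMap x => exact τ.commutes x
      | add x y _ _ hx hy => rw [map_add, hx, hy]
      | inv x _ hx => rw [map_inv₀, hx]
      | mul x y _ _ hx hy => rw [map_mul, hx, hy]
    let τ' : Ω →ₐ[N⟮h⟯] Ω :=
      { toFun := τ
        map_one' := map_one τ
        map_mul' := map_mul τ
        map_zero' := map_zero τ
        map_add' := map_add τ
        commutes' := fun r => h2 r r.2 }
    have hτ' : ∀ x, τ' x = τ x := fun x => rfl
    have h3 : ∀ k : ℕ, (aeval (l + k)) (minpoly N⟮h⟯ l) = 0 := by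
      intro k
      induction k with
      | zero => rw [Nat.cast_zero, add_zero, minpoly.aeval]
      | succ k ih =>
        have e : l + ((k + 1 : ℕ) : Ω) = τ' (l + k) := by
          rw [hτ', map_add, map_natCast, hτ]
          push_cast
          ring
        rw [e, aeval_algHom_apply, ih, map_zero]
    have h4 : minpoly N⟮h⟯ l ≠ 0 := minpoly.ne_zero h1.isIntegral
    have h5 : ((minpoly N⟮h⟯ l).rootSet Ω).Infinite := by
      refine Set.infinite_of_injective_forall_mem (f := fun k : ℕ => l + (k : Ω)) ?_ ?_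
      · intro i j hij
        simp only [add_right_inj, Nat.cast_inj] at hij
        exact hij
      · intro k
        rw [mem_rootSet]
        exact ⟨h4, h3 k⟩
    exact h5 (rootSet_finite _ _)
  -- the multiplication
  set a : Ω := algebraMap ℂ Ω ((√2 : ℝ) : ℂ) with ha
  have haN : a ∈ N := N.algebraMap_mem _
  have ha2 : a * a = 2 := by
    rw [ha, ← map_mul, ← Complex.ofReal_mul, Real.mul_self_sqrt (by norm_num),
      Complex.ofReal_ofNat, map_ofNat]
  have ha0 : a ≠ 0 := by
    intro h0
    rw [h0, zero_mul] at ha2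
    exact two_ne_zero ha2.symm
  have haq : ∀ q : ℚ, a ≠ (q : Ω) := by
    intro q h0
    have e : ((q : Ω)) = algebraMap ℂ Ω (q : ℂ) := by rw [map_ratCast]
    rw [ha, e] at h0
    have h1 := (algebraMap ℂ Ω).injective h0
    have h2 : (√2 : ℝ) = (q : ℝ) := by exact_mod_cast h1
    exact irrational_sqrt_two ⟨q, h2.symm⟩
  obtain ⟨σ, hσ⟩ := hNl (φ := a * l) (fun h => hl (by
    have := N.mul_mem (N.inv_mem haN) h
    rwa [inv_mul_cancel_left₀ ha0] at this)) (by
    have h1 : a * l ∈ N⟮a * l⟯ := mem_adjoin_simple_self _ _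
    have h2 : a ∈ N⟮a * l⟯ := IntermediateField.algebraMap_mem N⟮a * l⟯ (⟨a, haN⟩ : N)
    have h3 := mul_mem (inv_mem h2) h1
    rwa [inv_mul_cancel_left₀ ha0] at h3)
  have hδσ : δ (σ l) = a := by
    rw [hσ, δ.leibniz, hδl, hδN a haN, smul_zero, add_zero, smul_eq_mul, mul_one]
  have hc2 := hconj σ a haN hδσ
  obtain ⟨r, hr⟩ := hcon σ
  rw [hδσ] at hr
  have hσg : σ g ≠ 0 := fun h => hg ((map_eq_zero σ).1 h)
  have hr0 : (r : Ω) ≠ 0 := by
    intro h0
    rw [h0, zero_mul] at hr
    exact mul_ne_zero ha0 hσg hr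
  have hσh : σ h = h := σ.commutes ⟨h, hhN⟩
  have e1 : a * (a * (h * σ g)) = r * (h * g) := by
    have h1 := congrArg δ hr
    rw [hδq, δ.leibniz, hδN a haN, smul_zero, add_zero, smul_eq_mul, hc2, ← hgh, map_mul,
      hσh] at h1
    exact h1
  have e2 : h * (r * g) * (a - 1) = 0 := by
    have h1 : a * (h * (r * g)) = r * (h * g) := by
      rw [← e1, ← hr]
      ring
    linear_combination h1
  have ha1 : a - 1 ≠ 0 := by
    intro h0
    apply haq 1
    rw [Rat.cast_one]
    exact sub_eq_zero.1 h0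
  have hh0 : h = 0 := by
    have h1 := (mul_eq_zero.1 e2).resolve_right ha1
    exact (mul_eq_zero.1 h1).resolve_right (mul_ne_zero hr0 hg)
  have hδg : δ g = 0 := by rw [← hgh, hh0, zero_mul]
  have hgN : g ∈ N := by
    by_contra hc
    have h1 := (exch hl' (htr g hc) alg).isAlgebraic l
    have h2 := ker_top N δ hδN hδg h1
    rw [hδl] at h2
    exact one_ne_zero h2
  have hσg' : σ g = g := σ.commutes ⟨g, hgN⟩
  rw [hσg'] at hr
  exact haq r (mul_right_cancel₀ hg hr)

end Pool.Agent.N559.HO
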